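import Pool.Agent.Q183.SN.Gen

/-!
Functors from groups to abelian groups which satisfy the key identity: coinvariants, the direct sum
of the orbits and the kernel formula.
-/

namespace Pool.Agent.Q183.SN

open Pool.Agent.Y483 Pool.Agent.Y477.IW CategoryTheory Pointwise

universe v w

variable {Γ N X : Type} [Group Γ] [Group N] [MulAction Γ X] {φ : Γ →* MulAut N}
  {L : GrpCat.{0} ⥤ AddCommGrpCat.{w}} (us : USupp φ X)

/-- Each class comes from a finite set of elements of the group, in the sense that the endomorphisms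
which fix these elements fix the class. -/
def ContG (L : GrpCat.{0} ⥤ AddCommGrpCat.{w}) : Prop :=
  ∀ (G : Type) [Group G] (x : FO L G), ∃ X₀ : Finset G, ∀ f : G →* G, (∀ g ∈ X₀, f g = g) →
    fm L f x = x

/-- The subgroup generated by the elements `γ z - z`. -/
def coG (L : GrpCat.{0} ⥤ AddCommGrpCat.{w}) (φ : Γ →* MulAut N) : AddSubgroup (FO L N) :=
  AddSubgroup.closure {w | ∃ (γ : Γ) (z : FO L N), w = fm L (φ γ).toMonoidHom z - z}

theorem key_moeb_g (hK : KeyProp L us) [DecidableEq X]
    (F : Finset X) (x : FO L N)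
    (hx : fm L (us.e (F : Set X)) x = x) (y : FO L Γ)
    (hxy : fm L (SemidirectProduct.inl : N →* N ⋊[φ] Γ) x =
      fm L (SemidirectProduct.inr : Γ →* N ⋊[φ] Γ) y) (S : Finset X) (hS : S.Nonempty)
    (Y : Finset Γ) (hY : ∀ y ∉ Y, Disjoint (y • S) F) :
    ∑ a ∈ Y, fm L (φ a⁻¹).toMonoidHom
      (moeb (fun U : Finset X => fm L (us.e (U : Set X)) x) (a • S)) = 0 := by
  rename_i dec
  have e : dec = fun a b => Classical.propDecidable (a = b) := Subsingleton.elim _ _
  subst e
  exact hK F x hx y hxy S hS Y hY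

theorem fm_ee' (U T : Finset X) [DecidableEq X] (a : FO L N) :
    fm L (us.e (U : Set X)) (fm L (us.e (T : Set X)) a) =
      fm L (us.e ((U ∩ T : Finset X) : Set X)) a := by
  have e : (us.e (U : Set X)).comp (us.e (T : Set X)) = us.e ((U ∩ T : Finset X) : Set X) := by
    ext1 n
    rw [MonoidHom.comp_apply, us.inter, Finset.coe_inter]
  rw [fm_comp, e]

include us in
/-- The coinvariants. -/
theorem coinv_g (hK : KeyProp L us) (hE : ContG L)
    (hst : ∀ v : X, Finite (MulAction.stabilizer Γ v))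
    (x : FO L N) (y : FO L Γ)
    (hxy : fm L (SemidirectProduct.inl : N →* N ⋊[φ] Γ) x =
      fm L (SemidirectProduct.inr : Γ →* N ⋊[φ] Γ) y) (m : ℕ)
    (hm : ∀ K : Subgroup Γ, Finite K → Nat.card K ∣ m) :
    m • (x - fm L (1 : N →* N) x) ∈ coG L φ := by
  classical
  obtain ⟨X₀, hX⟩ := hE N x
  choose S hS using us.finite
  let F : Finset X := X₀.biUnion (fun n => (hS n).1.toFinset)
  have hF : fm L (us.e (F : Set X)) x = x := by
    apply hX
    intro n hn
    have h1 : S n ⊆ (F : Set X) := by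
      intro s hs
      rw [Finset.mem_coe, Finset.mem_biUnion]
      exact ⟨n, hn, (hS n).1.mem_toFinset.mpr hs⟩
    conv_lhs => rw [← (hS n).2]
    rw [us.inter, Set.inter_eq_self_of_subset_right h1, (hS n).2]
  set c : Finset X → FO L N := fun U => fm L (us.e (U : Set X)) x with hc
  have hcF : ∀ S, c S = c (S ∩ F) := by
    intro S
    change fm L (us.e (S : Set X)) x = fm L (us.e ((S ∩ F : Finset X) : Set X)) x
    conv_lhs => rw [← hF]
    rw [fm_ee']
  let q := QuotientAddGroup.mk' (coG L φ)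
  let g : Finset X → FO L N ⧸ coG L φ := fun S => q (c S) - q (fm L (1 : N →* N) x)
  have hmoeb : ∀ S : Finset X, S.Nonempty → moeb g S = q (moeb c S) := by
    intro S hS
    rw [show moeb g S = moeb (fun S => q (c S)) S from moeb_sub_const _ _ S hS, moeb_map]
  have hact : ∀ (γ : Γ) (u : FO L N), q (fm L (φ γ).toMonoidHom u) = q u := by
    intro γ u
    rw [← sub_eq_zero, ← map_sub]
    exact (QuotientAddGroup.eq_zero_iff _).mpr (AddSubgroup.subset_closure ⟨γ, u, rfl⟩)
  have hmain := smul_eq_zero_of_moeb hst g F ?_ ?_ m ?_ ?_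
  · have e1 : g F = q (x - fm L (1 : N →* N) x) := by
      change q (c F) - _ = _
      rw [show c F = x from hF, map_sub]
    rw [e1, ← map_nsmul] at hmain
    exact (QuotientAddGroup.eq_zero_iff _).mp hmain
  · intro S
    change q (c S) - _ = q (c (S ∩ F)) - _
    rw [hcF S]
  · change q (c ∅) - _ = 0
    have e0 : us.e ((∅ : Finset X) : Set X) = 1 := by
      ext1 n
      rw [Finset.coe_empty, us.empty]
      rfl
    have e1 : c ∅ = fm L (1 : N →* N) x := by
      change fm L (us.e ((∅ : Finset X) : Set X)) x = _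
      rw [e0]
    rw [e1, sub_self]
  · intro S _ hne
    exact hm _ (finite_stabV hst S hne)
  · intro S _ hne Y hY
    have h1 := congrArg q (key_moeb_g us hK F x hF y hxy S hne Y hY)
    rw [map_zero, map_sum] at h1
    rw [← h1]
    apply Finset.sum_congr rfl
    intro a _
    rw [hmoeb _ hne.smul_finset, hact]

/-- **Direct sum.** -/
theorem dsum_g (hK : KeyProp L us) [DecidableEq X] (htf : ∀ H : Subgroup Γ, Finite H → H = ⊥)
    (hst : ∀ v : X, Finite (MulAction.stabilizer Γ v))
    {ι : Type} (I : Finset ι) (T : ι → Finset X) (hT : ∀ i ∈ I, (T i).Nonempty)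
    (hTT : ∀ i ∈ I, ∀ j ∈ I, ∀ γ : Γ, γ • T i = T j → i = j)
    (x : ι → FO L N) (hx : ∀ i ∈ I, fm L (us.e (T i : Set X)) (x i) = x i)
    (hred : ∀ i ∈ I, ∀ U : Finset X, U ⊂ T i → fm L (us.e (U : Set X)) (x i) = 0)
    (y : FO L Γ)
    (hxy : ∑ i ∈ I, fm L (SemidirectProduct.inl : N →* N ⋊[φ] Γ) (x i) =
      fm L (SemidirectProduct.inr : Γ →* N ⋊[φ] Γ) y) (i : ι) (hi : i ∈ I) : x i = 0 := by
  classical
  have hES : ∀ j ∈ I, ∀ S : Finset X, fm L (us.e (S : Set X)) (x j) =
      if T j ⊆ S then x j else 0 := by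
    intro j hj S
    have h1 : fm L (us.e (S : Set X)) (x j) =
        fm L (us.e ((S ∩ T j : Finset X) : Set X)) (x j) := by
      conv_lhs => rw [← hx j hj]
      rw [fm_ee']
    rw [h1]
    split_ifs with h
    · rw [Finset.inter_eq_right.mpr h, hx j hj]
    · apply hred j hj
      refine Finset.ssubset_iff_subset_ne.mpr ⟨Finset.inter_subset_right, fun h2 => h ?_⟩
      exact Finset.inter_eq_right.mp h2
  set xs : FO L N := ∑ j ∈ I, x j with hxs
  let F : Finset X := I.biUnion T
  have hF : fm L (us.e (F : Set X)) xs = xs := by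
    rw [hxs, map_sum]
    apply Finset.sum_congr rfl
    intro j hj
    rw [hES j hj, if_pos (Finset.subset_biUnion_of_mem T hj)]
  let Y : Finset Γ := carry hst F F
  have hTF : T i ⊆ F := Finset.subset_biUnion_of_mem T hi
  have hY : ∀ U ⊆ T i, ∀ z ∉ Y, Disjoint (z • U) F := by
    intro U hU z hz
    rw [Finset.disjoint_left]
    intro t ht htF
    obtain ⟨u, hu, rfl⟩ := Finset.mem_smul_finset.mp ht
    exact hz (mem_carry hst (hTF (hU hu)) htF)
  have hxy' : fm L (SemidirectProduct.inl : N →* N ⋊[φ] Γ) xs =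
      fm L (SemidirectProduct.inr : Γ →* N ⋊[φ] Γ) y := by
    rw [hxs, map_sum]; exact hxy
  let c : Finset X → FO L N := fun S => fm L (us.e (S : Set X)) xs
  have hm : ∑ a ∈ Y, fm L (φ a⁻¹).toMonoidHom (moeb c (a • T i)) = 0 :=
    key_moeb_g us hK F xs hF y hxy' (T i) (hT i hi) Y (hY (T i) subset_rfl)
  have hc : ∀ S, moeb c S = ∑ j ∈ I, if S = T j then x j else 0 := by
    intro S
    have e1 : c = fun S => ∑ j ∈ I, (if T j ⊆ S then x j else 0) := by
      funext S
      change fm L (us.e (S : Set X)) (∑ j ∈ I, x j) = _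
      rw [map_sum]
      exact Finset.sum_congr rfl fun j hj => hES j hj S
    rw [e1, moeb_sum_fun]
    apply Finset.sum_congr rfl
    intro j _
    exact moeb_delta (T j) (x j) S
  have hterm : ∀ a : Γ, moeb c (a • T i) = if a = 1 then x i else 0 := by
    intro a
    rw [hc]
    split_ifs with ha
    · subst ha
      rw [one_smul, Finset.sum_eq_single i]
      · rw [if_pos rfl]
      · intro j hj hji
        rw [if_neg]
        intro h
        apply hji
        symm
        apply hTT i hi j hj 1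
        rw [one_smul, h]
      · intro h; exact absurd hi h
    · apply Finset.sum_eq_zero
      intro j hj
      rw [if_neg]
      intro h
      have hij : i = j := hTT i hi j hj a h
      subst hij
      apply ha
      have h2 := finite_stabV hst (T i) (hT i hi)
      have h3 := htf _ h2
      have h4 : a ∈ MulAction.stabilizer Γ (T i) := h
      rw [h3, Subgroup.mem_bot] at h4
      exact h4
  have h1Y : (1 : Γ) ∈ Y := by
    obtain ⟨s, hs⟩ := hT i hi
    exact mem_carry hst (hTF hs) (by rw [one_smul]; exact hTF hs)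
  rw [Finset.sum_eq_single_of_mem 1 h1Y] at hm
  · rw [hterm, if_pos rfl, inv_one, map_one] at hm
    have e : (1 : MulAut N).toMonoidHom = MonoidHom.id N := rfl
    rw [e, fm_id] at hm
    exact hm
  · intro a _ ha
    rw [hterm, if_neg ha, map_zero]

/-! ### The kernel formula -/

section Kernel

variable {H : GrpCat.{0} ⥤ AddCommGrpCat.{v}}

/-- The subgroup of `H(N)` generated by the images of the parts of `N` supported on the members of
the family. -/
noncomputable def genN (H : GrpCat.{0} ⥤ AddCommGrpCat.{v}) (C : Set (Finset X)) :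
    AddSubgroup (FO H N) :=
  AddSubgroup.closure {w | ∃ T ∈ C, ∃ z : FO H (us.part (T : Set X)),
    w = fm H (us.e (T : Set X)).range.subtype z}

variable [DecidableEq X]

theorem shape_g (C : Set (Finset X)) (hC : ∀ S ∈ C, ∀ T ⊆ S, T ∈ C) (a : FO H N)
    (ha : a ∈ genN us H C) : ∃ F : Finset X, fm H (us.e (F : Set X)) a = a ∧
      ∀ S ∉ C, moeb (fun U : Finset X => fm H (us.e (U : Set X)) a) S = 0 := by
  unfold genN at ha
  induction ha using AddSubgroup.closure_induction with
  | mem w hw =>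
    obtain ⟨T, hT, z, rfl⟩ := hw
    have h1 : fm H (us.e (T : Set X)) (fm H (us.e (T : Set X)).range.subtype z) =
        fm H (us.e (T : Set X)).range.subtype z := by
      have e : (us.e (T : Set X)).comp (us.e (T : Set X)).range.subtype =
          (us.e (T : Set X)).range.subtype := by
        ext1 u
        obtain ⟨n, hn⟩ := u.2
        change us.e (T : Set X) u.1 = u.1
        rw [← hn, us.inter, Set.inter_self]
      rw [fm_comp, e]
    refine ⟨T, h1, fun S hS => ?_⟩
    refine moeb_eq_zero (F := T) ?_ (fun h => hS (hC T hT S h))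
    intro U
    conv_lhs => rw [← h1, fm_ee']
  | zero =>
    refine ⟨∅, map_zero _, fun S _ => ?_⟩
    unfold moeb
    apply Finset.sum_eq_zero
    intro T _
    change _ • fm H (us.e (T : Set X)) 0 = 0
    rw [map_zero, smul_zero]
  | add u v _ _ hu hv =>
    obtain ⟨F₁, h₁, k₁⟩ := hu
    obtain ⟨F₂, h₂, k₂⟩ := hv
    refine ⟨F₁ ∪ F₂, ?_, fun S hS => ?_⟩
    · rw [map_add]
      congr 1
      · conv_lhs => rw [← h₁, fm_ee', Finset.inter_eq_right.mpr Finset.subset_union_left, h₁]
      · conv_lhs => rw [← h₂, fm_ee', Finset.inter_eq_right.mpr Finset.subset_union_right, h₂]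
    · have e : (fun U : Finset X => fm H (us.e (U : Set X)) (u + v)) =
          fun U : Finset X => fm H (us.e (U : Set X)) u + fm H (us.e (U : Set X)) v := by
        funext U
        rw [map_add]
      rw [e, moeb_add, k₁ S hS, k₂ S hS, add_zero]
  | neg u _ hu =>
    obtain ⟨F₁, h₁, k₁⟩ := hu
    refine ⟨F₁, by rw [map_neg, h₁], fun S hS => ?_⟩
    have e : (fun U : Finset X => fm H (us.e (U : Set X)) (-u)) =
        fun U : Finset X => (-(AddMonoidHom.id (FO H N))) (fm H (us.e (U : Set X)) u) := by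
      funext U
      rw [map_neg]
      rfl
    rw [e, moeb_map, k₁ S hS, map_zero]

variable {L : GrpCat.{0} ⥤ AddCommGrpCat.{v}}

/-- **Integral kernel formula for an invariant family of finite subsets.** -/
theorem kernel_g (hK : KeyProp L us) (hH : ConjTrivial H) (α : H ⟶ L)
    (hst : ∀ v : X, Finite (MulAction.stabilizer Γ v))
    (C : Set (Finset X)) (hC : ∀ S ∈ C, ∀ T ⊆ S, T ∈ C) (hinv : ∀ S ∉ C, ∀ γ : Γ, γ • S ∉ C)
    (a : FO H N) (ha : a ∈ genN us H C) (b : FO H Γ)
    (hab : (α.app (GrpCat.of (N ⋊[φ] Γ))).hom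
      (fm H SemidirectProduct.inl a + fm H SemidirectProduct.inr b) = 0)
    (m : ℕ) (hm : ∀ K : Subgroup Γ, Finite K → Nat.card K ∣ m) :
    m • (fm H (SemidirectProduct.inl : N →* N ⋊[φ] Γ) a + fm H SemidirectProduct.inr b) ∈
      kerOver α us C := by
  classical
  obtain ⟨F, hF, hκ0⟩ := shape_g us C hC a ha
  set c : Finset X → FO H N := fun U => fm H (us.e (U : Set X)) a with hc
  have hcF : ∀ S, c S = c (S ∩ F) := by
    intro S
    change fm H (us.e (S : Set X)) a = fm H (us.e ((S ∩ F : Finset X) : Set X)) a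
    conv_lhs => rw [← hF, fm_ee']
  have hxF : fm L (us.e (F : Set X)) ((α.app (GrpCat.of N)).hom a) =
      (α.app (GrpCat.of N)).hom a := by
    rw [← fm_app, hF]
  have hxy : fm L (SemidirectProduct.inl : N →* N ⋊[φ] Γ) ((α.app (GrpCat.of N)).hom a) =
      fm L (SemidirectProduct.inr : Γ →* N ⋊[φ] Γ) (-((α.app (GrpCat.of Γ)).hom b)) := by
    rw [map_neg, ← fm_app, ← fm_app]
    rw [map_add] at hab
    exact eq_neg_of_add_eq_zero_left hab
  have hconj : ∀ (γ : Γ) (u : FO H N), fm H (SemidirectProduct.inl : N →* N ⋊[φ] Γ)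
      (fm H (φ γ⁻¹).toMonoidHom u) = fm H (SemidirectProduct.inl : N →* N ⋊[φ] Γ) u := by
    intro γ u
    have e : (SemidirectProduct.inl : N →* N ⋊[φ] Γ).comp (φ γ⁻¹).toMonoidHom =
        (MulAut.conj (SemidirectProduct.inr γ⁻¹ : N ⋊[φ] Γ)).toMonoidHom.comp
          (SemidirectProduct.inl : N →* N ⋊[φ] Γ) := by
      ext1 n
      change (SemidirectProduct.inl (φ γ⁻¹ n) : N ⋊[φ] Γ) =
        SemidirectProduct.inr γ⁻¹ * SemidirectProduct.inl n * (SemidirectProduct.inr γ⁻¹)⁻¹
      rw [SemidirectProduct.inl_aut, ← map_inv]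
    rw [fm_comp, e, fm_conj hH]
  let KO : AddSubgroup (FO H (N ⋊[φ] Γ)) := kerOver α us C
  change m • (fm H (SemidirectProduct.inl : N →* N ⋊[φ] Γ) a + fm H SemidirectProduct.inr b) ∈ KO
  let q := QuotientAddGroup.mk' KO
  let g : Finset X → FO H (N ⋊[φ] Γ) ⧸ KO := fun S =>
    (q.comp (fm H (SemidirectProduct.inl : N →* N ⋊[φ] Γ))) (c S) -
      q (fm H (1 : N →* N ⋊[φ] Γ) a)
  have hmoeb : ∀ S : Finset X, S.Nonempty → moeb g S =
      q (fm H (SemidirectProduct.inl : N →* N ⋊[φ] Γ) (moeb c S)) := by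
    intro S hS
    rw [show moeb g S = moeb (fun S => (q.comp
      (fm H (SemidirectProduct.inl : N →* N ⋊[φ] Γ))) (c S)) S from moeb_sub_const _ _ S hS,
      moeb_map]
    rfl
  have hmain := smul_eq_zero_of_moeb hst g F ?_ ?_ m ?_ ?_
  · have e1 : g F = q (fm H (SemidirectProduct.inl : N →* N ⋊[φ] Γ) a -
        fm H (1 : N →* N ⋊[φ] Γ) a) := by
      change q (fm H (SemidirectProduct.inl : N →* N ⋊[φ] Γ) (c F)) - _ = _
      rw [show c F = a from hF, map_sub]
    rw [e1, ← map_nsmul] at hmain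
    have h1 : m • (fm H (SemidirectProduct.inl : N →* N ⋊[φ] Γ) a -
        fm H (1 : N →* N ⋊[φ] Γ) a) ∈ KO := (QuotientAddGroup.eq_zero_iff _).mp hmain
    have h2 : fm H (SemidirectProduct.inr : Γ →* N ⋊[φ] Γ) (b + fm H (1 : N →* Γ) a) ∈ KO := by
      have h3 := congrArg (fm L (SemidirectProduct.rightHom : N ⋊[φ] Γ →* Γ)) hab
      rw [map_zero, ← fm_app, map_add, fm_comp, fm_comp,
        SemidirectProduct.rightHom_comp_inl, SemidirectProduct.rightHom_comp_inr, fm_id] at h3
      have h4 : imKer α (inΓ φ) ≤ KO := le_sup_left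
      refine h4 ⟨b + fm H (1 : N →* Γ) a, ?_, rfl⟩
      rw [add_comm]
      exact h3
    have h4 := KO.add_mem h1 (KO.nsmul_mem h2 m)
    rw [← nsmul_add] at h4
    convert h4 using 2
    rw [map_add, fm_comp]
    have e2 : (SemidirectProduct.inr : Γ →* N ⋊[φ] Γ).comp (1 : N →* Γ) = 1 := by
      ext1 n
      rw [MonoidHom.comp_apply, MonoidHom.one_apply, map_one]
      rfl
    rw [e2]
    abel
  · intro S
    change (q.comp _) (c S) - _ = (q.comp _) (c (S ∩ F)) - _
    rw [hcF S]
  · change q (fm H (SemidirectProduct.inl : N →* N ⋊[φ] Γ) (c ∅)) - _ = 0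
    have e0 : us.e ((∅ : Finset X) : Set X) = 1 := by
      ext1 n
      rw [Finset.coe_empty, us.empty]
      rfl
    have e1 : c ∅ = fm H (1 : N →* N) a := by
      change fm H (us.e ((∅ : Finset X) : Set X)) a = _
      rw [e0]
    rw [e1, fm_comp]
    have e2 : (SemidirectProduct.inl : N →* N ⋊[φ] Γ).comp (1 : N →* N) = 1 := by
      ext1 n
      rw [MonoidHom.comp_apply, MonoidHom.one_apply, map_one]
      rfl
    rw [e2, sub_self]
  · intro S _ hne
    exact hm _ (finite_stabV hst S hne)
  · intro S _ hne Y hY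
    by_cases hSC : S ∈ C
    · let z : FO H N := ∑ y ∈ Y, fm H (φ y⁻¹).toMonoidHom (moeb c (y • S))
      have hfix : ∀ U : Finset X, fm H (us.e (U : Set X)) (moeb c U) = moeb c U := by
        intro U
        rw [← moeb_map (fm H (us.e (U : Set X))) c U]
        unfold moeb
        apply Finset.sum_congr rfl
        intro T hT
        congr 1
        change fm H (us.e (U : Set X)) (fm H (us.e (T : Set X)) a) = fm H (us.e (T : Set X)) a
        rw [fm_ee', Finset.inter_eq_right.mpr (Finset.mem_powerset.mp hT)]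
      have hz1 : fm H (us.e (S : Set X)) z = z := by
        rw [map_sum]
        apply Finset.sum_congr rfl
        intro y _
        have e1 : (us.e (S : Set X)).comp (φ y⁻¹).toMonoidHom =
            ((φ y⁻¹).toMonoidHom).comp (us.e ((y • S : Finset X) : Set X)) := by
          ext1 n
          change us.e (S : Set X) (φ y⁻¹ n) = φ y⁻¹ (us.e ((y • S : Finset X) : Set X) n)
          rw [us.equivariant, Finset.coe_smul_finset, inv_smul_smul]
        rw [fm_comp, e1, ← fm_comp, hfix]
      have hz2 : (α.app (GrpCat.of N)).hom z = 0 := by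
        rw [map_sum]
        rw [← key_moeb_g us hK F ((α.app (GrpCat.of N)).hom a) hxF
          (-((α.app (GrpCat.of Γ)).hom b)) hxy S hne Y hY]
        apply Finset.sum_congr rfl
        intro y _
        rw [fm_app]
        congr 1
        rw [← moeb_map ((α.app (GrpCat.of N)).hom) c]
        congr 1
        funext U
        exact fm_app α _ a
      let w' : FO H (us.part (S : Set X)) := fm H (us.e (S : Set X)).rangeRestrict z
      have hw1 : (α.app (GrpCat.of (us.part (S : Set X)))).hom w' = 0 := by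
        rw [fm_app, hz2, map_zero]
      have hw2 : fm H (us.partIncl (S : Set X)) w' =
          fm H (SemidirectProduct.inl : N →* N ⋊[φ] Γ) z := by
        conv_rhs => rw [← hz1]
        rw [fm_comp, fm_comp]
        rfl
      have hmem : fm H (SemidirectProduct.inl : N →* N ⋊[φ] Γ) z ∈ KO := by
        rw [← hw2]
        have h4 : imKer α (inPart us S) ≤ KO :=
          le_sup_of_le_right (le_iSup₂_of_le S hSC le_rfl)
        exact h4 ⟨w', hw1, rfl⟩
      have hq : q (fm H (SemidirectProduct.inl : N →* N ⋊[φ] Γ) z) = 0 :=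
        (QuotientAddGroup.eq_zero_iff _).mpr hmem
      rw [← hq, map_sum, map_sum]
      apply Finset.sum_congr rfl
      intro y _
      rw [hmoeb _ hne.smul_finset, hconj]
    · apply Finset.sum_eq_zero
      intro y _
      rw [hmoeb _ hne.smul_finset, hκ0 _ (hinv S hSC y), map_zero, map_zero]

end Kernel

/-- The kernel formula, in the category of groups. -/
theorem kernelFormulaOver_g (hK : KeyProp L us)
    (hst : ∀ v : X, Finite (MulAction.stabilizer Γ v)) (m : ℕ)
    (hm : ∀ K : Subgroup Γ, Finite K → Nat.card K ∣ m) : KernelFormulaOver L us m := by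
  classical
  rintro C ⟨hC, hinv⟩ H hH α x hx hα
  have hshape : ∃ (a : FO H N) (b : FO H Γ), a ∈ genN us H C ∧
      x = fm H (SemidirectProduct.inl : N →* N ⋊[φ] Γ) a +
        fm H (SemidirectProduct.inr : Γ →* N ⋊[φ] Γ) b := by
    clear hα
    replace hx := genOver_le us H C hx
    induction hx using AddSubgroup.closure_induction with
    | mem w hw =>
      rcases hw with ⟨y, rfl⟩ | ⟨S, hS, z, rfl⟩
      · exact ⟨0, y, AddSubgroup.zero_mem _, by rw [map_zero, zero_add]; rfl⟩
      · refine ⟨fm H (us.e (S : Set X)).range.subtype z, 0, ?_, ?_⟩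
        · exact AddSubgroup.subset_closure ⟨S, hS, z, rfl⟩
        · rw [map_zero, add_zero, fm_comp]
          rfl
    | zero =>
      refine ⟨0, 0, AddSubgroup.zero_mem _, ?_⟩
      rw [map_zero, map_zero, zero_add]
      rfl
    | add u v _ _ hu hv =>
      obtain ⟨a₁, b₁, h₁, rfl⟩ := hu
      obtain ⟨a₂, b₂, h₂, rfl⟩ := hv
      refine ⟨a₁ + a₂, b₁ + b₂, AddSubgroup.add_mem _ h₁ h₂, ?_⟩
      rw [map_add, map_add]
      exact add_add_add_comm _ _ _ _
    | neg u _ hu =>
      obtain ⟨a₁, b₁, h₁, rfl⟩ := hu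
      refine ⟨-a₁, -b₁, AddSubgroup.neg_mem _ h₁, ?_⟩
      rw [map_neg, map_neg]
      exact neg_add _ _
  obtain ⟨a, b, ha, rfl⟩ := hshape
  have hinv' : ∀ S ∉ C, ∀ γ : Γ, γ • S ∉ C := by
    intro S hS γ h2
    apply hS
    refine hinv _ h2 γ⁻¹ S (fun v => ?_)
    rw [inv_inv]
    exact (Finset.smul_mem_smul_finset_iff γ).symm
  exact kernel_g us hK hH α hst C hC hinv' a ha b hα m hm

/-- The coinvariants, in the category of groups. -/
theorem coinvariantsEmbed_g (hK : KeyProp L us) (hE : ContG L)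
    (hst : ∀ v : X, Finite (MulAction.stabilizer Γ v)) (m : ℕ)
    (hm : ∀ K : Subgroup Γ, Finite K → Nat.card K ∣ m) : CoinvariantsEmbed L φ m := by
  intro x y hxy
  exact coinv_g us hK hE hst x y hxy m hm

/-- The direct sum, in the category of groups. -/
theorem orbitsIndependent_g (hK : KeyProp L us) (hst : ∀ v : X, Finite (MulAction.stabilizer Γ v))
    (htf : ∀ H : Subgroup Γ, Finite H → H = ⊥) : OrbitsIndependent L us := by
  classical
  intro k T hne hor x hx hred y hxy i
  refine dsum_g us hK htf hst Finset.univ T (fun i _ => hne i) ?_ x (fun i _ => hx i)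
    (fun i _ => hred i) y ?_ i (Finset.mem_univ i)
  · intro i _ j _ γ h
    apply hor i j γ
    intro v
    rw [← h, ← Finset.inv_smul_mem_iff]
  · refine Eq.trans ?_ hxy
    exact (map_sum (fm L (SemidirectProduct.inl : N →* N ⋊[φ] Γ)) x Finset.univ).symm

end Pool.Agent.Q183.SN
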