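import Pool.Agent.Y477.IW.UFin
import Pool.Agent.Y483.PI.Main

/-!
Functors from groups to abelian groups with integral transfers along pairs of cocycles: the key
identity for semidirect products with equivariant retractions, coinvariants, the direct sum of the
orbits and the kernel formula.
-/

namespace Pool.Agent.Q183.SN

open Pool.Agent.Y483 Pool.Agent.Y477.IW CategoryTheory Pointwise

universe v w

section Key

variable {Γ N X : Type} [Group Γ] [Group N] [MulAction Γ X] {φ : Γ →* MulAut N}
  {L : GrpCat.{0} ⥤ AddCommGrpCat.{w}} (us : USupp φ X)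

/-- The pair of cocycles given by the cocycle with values in a part, and the trivial one. -/
noncomputable def pairU (hst : ∀ v : X, Finite (MulAction.stabilizer Γ v)) (F : Finset X) :
    FinPair (N ⋊[φ] Γ) (Pt φ) (us.part (F : Set X)) where
  σ := MulAction.toPermHom (N ⋊[φ] Γ) (Pt φ)
  c := (us.cocycle hst F).c
  d _ _ := 1
  mul_c := (us.cocycle hst F).mul
  mul_d _ _ _ := (mul_one 1).symm
  fin := (us.cocycle hst F).fin

/-- The key identity. -/
theorem key_g (hL : Pool.Agent.Y483.PI.HasPTI L) [DecidableEq X]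
    (hst : ∀ v : X, Finite (MulAction.stabilizer Γ v)) (F : Finset X)
    (x : FO L N) (hx : fm L (us.e (F : Set X)) x = x) (y : FO L Γ)
    (hxy : fm L (SemidirectProduct.inl : N →* N ⋊[φ] Γ) x =
      fm L (SemidirectProduct.inr : Γ →* N ⋊[φ] Γ) y) (T : Finset X) (Y : Finset Γ)
    (hY : ∀ y ∉ Y, Disjoint (y • T) F) :
    ∑ a ∈ Y, (fm L (φ a⁻¹).toMonoidHom (fm L (us.e ((a • T : Finset X) : Set X)) x) -
      fm L (1 : N →* N) x) = 0 := by
  classical
  have hj : ∀ (g : N) (a : Pt φ), us.incl (F : Set X) g • a = a := by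
    intro g a
    exact one_mul (show Γ from a)
  have hlab : ∀ a ∉ (Y : Finset (Pt φ)), ∀ g : N,
      (us.cocycle hst T).c (us.incl (F : Set X) g) a = 1 := by
    intro a ha g
    apply Subtype.ext
    change us.e T (φ ((1 : Γ) * (show Γ from a))⁻¹ (us.e (F : Set X) g)) = 1
    rw [one_mul, us.equivariant]
    rw [us.inter]
    have hd : (T : Set X) ∩ ((show Γ from a)⁻¹ • (F : Set X)) = ∅ := by
      rw [← Set.disjoint_iff_inter_eq_empty, Set.disjoint_left]
      intro t ht ht'
      have h2 := Finset.disjoint_left.mp (hY a ha)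
        (Finset.smul_mem_smul_finset (a := (show Γ from a)) ht)
      apply h2
      rw [Set.mem_inv_smul_set_iff] at ht'
      simpa using ht'
    rw [hd, us.empty]
  have hi : ∀ (g : Γ) (a : Pt φ), (us.cocycle hst T).c
      ((SemidirectProduct.inr : Γ →* N ⋊[φ] Γ) g) a = 1 := by
    intro g a
    apply Subtype.ext
    change us.e T (φ (g * (show Γ from a))⁻¹ (1 : N)) = 1
    rw [map_one, map_one]
  have hxy' : fm L (us.incl (F : Set X)) x = fm L (SemidirectProduct.inr : Γ →* N ⋊[φ] Γ) y := by
    rw [← hxy]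
    conv_rhs => rw [← hx]
    rw [fm_comp]
    rfl
  obtain ⟨M, iM, Φ, ι, hι, hΦ⟩ := hL (N ⋊[φ] Γ) (Pt φ) (us.part (T : Set X)) (pairU us hst T)
  have h1 := hΦ N (us.incl (F : Set X)) (Y : Finset (Pt φ))
    (fun a => (us.cocycle hst T).label (us.incl (F : Set X)) hj a) (fun _ => 1)
    (fun a _ g => ⟨hj g a, rfl, rfl⟩) (fun a ha g => hlab a ha g) x
  have h2 := hΦ Γ (SemidirectProduct.inr : Γ →* N ⋊[φ] Γ) (∅ : Finset (Pt φ))
    (fun _ => 1) (fun _ => 1) (fun a ha => absurd ha (Finset.notMem_empty a))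
    (fun a _ g => hi g a) y
  rw [Finset.sum_empty, map_zero] at h2
  have h3 : Φ (Pool.Agent.Y483.PI.gm L (us.incl (F : Set X)) x) = 0 := by
    rw [← h2]
    exact congrArg Φ hxy'
  rw [h3] at h1
  have hk : ∑ a ∈ (Y : Finset (Pt φ)),
      (fm L ((us.cocycle hst T).label (us.incl (F : Set X)) hj a) x -
        fm L (1 : N →* us.part (T : Set X)) x) = 0 :=
    hι (h1.symm.trans (map_zero ι).symm)
  have hk2 := congrArg (fm L (us.e (T : Set X)).range.subtype) hk
  rw [map_zero, map_sum] at hk2
  refine Eq.trans ?_ hk2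
  refine Finset.sum_congr (ι := Γ) rfl ?_
  intro a _
  have e1 : ((us.e (T : Set X)).range.subtype).comp (1 : N →* us.part (T : Set X)) = 1 := by
    ext1 n; rfl
  have e2 : ((us.e (T : Set X)).range.subtype).comp
      ((us.cocycle hst T).label (us.incl (F : Set X)) hj a) =
      ((φ a⁻¹).toMonoidHom.comp (us.e ((a • T : Finset X) : Set X))).comp (us.e (F : Set X)) := by
    ext1 n
    change us.e T (φ ((1 : Γ) * a)⁻¹ (us.e (F : Set X) n)) =
      φ a⁻¹ (us.e ((a • T : Finset X) : Set X) (us.e (F : Set X) n))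
    have h6 := us.equivariant a⁻¹ (a • (T : Set X)) (us.e (F : Set X) n)
    rw [inv_smul_smul] at h6
    rw [one_mul, Finset.coe_smul_finset, h6]
  have e3 : fm L (us.e (T : Set X)).range.subtype (fm L
      ((us.cocycle hst T).label (us.incl (F : Set X)) hj a) x) =
      fm L (φ a⁻¹).toMonoidHom (fm L (us.e ((a • T : Finset X) : Set X)) x) := by
    have e4 := congrArg (fun f => fm L f x) e2
    refine (fm_comp _ _ x).trans (e4.trans ?_)
    change fm L (((φ a⁻¹).toMonoidHom.comp (us.e ((a • T : Finset X) : Set X))).comp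
      (us.e (F : Set X))) x = _
    rw [← fm_comp _ (us.e (F : Set X)), hx, ← fm_comp]
  have e5 : fm L (us.e (T : Set X)).range.subtype
      (fm L (1 : N →* us.part (T : Set X)) x) = fm L (1 : N →* N) x := by
    rw [fm_comp, e1]
  refine Eq.trans ?_ (map_sub (fm L (us.e (T : Set X)).range.subtype) _ _).symm
  exact (congrArg₂ (fun u v => u - v) e3 e5).symm

/-- Transfers along pairs give the Möbius transform of the key identity. -/
theorem keyProp_g (hL : Pool.Agent.Y483.PI.HasPTI L)
    (hst : ∀ v : X, Finite (MulAction.stabilizer Γ v)) : KeyProp L us := by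
  classical
  intro F x hx y hxy S hS Y hY
  set c : Finset X → FO L N := fun U => fm L (us.e (U : Set X)) x with hc
  have h1 : ∀ a : Γ, moeb c (a • S) = moeb (fun U => c U - fm L (1 : N →* N) x) (a • S) :=
    fun a => (moeb_sub_const c _ (a • S) hS.smul_finset).symm
  have hkey : ∀ U ⊆ S, ∑ a ∈ Y, fm L (φ a⁻¹).toMonoidHom
      (c (a • U) - fm L (1 : N →* N) x) = 0 := by
    intro U hU
    have hYU : ∀ y ∉ Y, Disjoint (y • U) F := fun y hy =>
      Finset.disjoint_of_subset_left (Finset.smul_finset_subset_smul_finset hU) (hY y hy)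
    have h2 := key_g us hL hst F x hx y hxy U Y hYU
    rw [← h2]
    apply Finset.sum_congr rfl
    intro a _
    rw [map_sub, fm_comp _ (1 : N →* N)]
    have e : (φ a⁻¹).toMonoidHom.comp (1 : N →* N) = 1 := by
      ext1 n; exact map_one (φ a⁻¹)
    rw [e]
  simp_rw [h1, moeb_smulV, map_sum, map_zsmul]
  rw [Finset.sum_comm]
  apply Finset.sum_eq_zero
  intro U hU
  rw [← Finset.smul_sum, hkey U (Finset.mem_powerset.mp hU), smul_zero]

end Key

end Pool.Agent.Q183.SN
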